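import Mathlib
import Pool.Agent.Lib.helper23.QcB
import Pool.Agent.Lib.helper23.QcC

namespace Pool.Agent.Results.MP_712a2d_co.CoinPlacement

theorem result : ∀ n c : ℕ, 4 ≤ n → c ≤ n →
    ∃ S : Finset (ℕ × ℕ), (∀ p ∈ S, p.1 < n ∧ p.2 < n) ∧ S.card = n * c ∧
      (∀ a : ℕ, (S.filter fun p => p.1 = a).card ≤ c) ∧
      (∀ b : ℕ, (S.filter fun p => p.2 = b).card ≤ c) ∧
      (∀ k : ℕ, (S.filter fun p => p.1 + p.2 = k).card ≤ c) ∧
      (∀ d : ℤ, (S.filter fun p => (p.1 : ℤ) - (p.2 : ℤ) = d).card ≤ c) := by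
  intro n c hn hc
  by_cases h : n % 6 = 3 ∧ c % 3 = 1
  · exact Pool.Agent.Lib.helper23.QcA.three_1 n c hn hc h.1 h.2
  · exact Pool.Agent.Lib.helper23.QcA.most n c hn hc h

end Pool.Agent.Results.MP_712a2d_co.CoinPlacement
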